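import Pool.Agent.Q27.HC.Grp

/-!
# Two families of commuting involutions acting on a finite set, and explicit generating sets
-/

set_option autoImplicit false

namespace Pool.Agent.Q27.HC

/-- **two families of commuting involutions without fixed points**: a closed walk through all
elements of the set -/
theorem walk_of_families {X : Type*} [Finite X] [Nontrivial X] (F1 F2 : Set (X → X))
    (h1 : Comm F1) (h2 : Comm F2)
    (hc : ∀ x y, Relation.EqvGen (fun a b => ∃ t ∈ F1 ∪ F2, b = t a) x y) (x0 : X) :
    ∃ w : ℕ → X, w 0 = x0 ∧ (∀ k, ∃ t ∈ F1 ∪ F2, w (k + 1) = t (w k)) ∧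
      w (Nat.card X) = x0 ∧ ∀ i j, i < Nat.card X → j < Nat.card X → w i = w j → i = j := by
  classical
  -- both families may be assumed nonempty
  obtain ⟨F1', F2', h1', h2', n1, n2, hs, hc'⟩ : ∃ F1' F2' : Set (X → X), Comm F1' ∧ Comm F2' ∧
      F1'.Nonempty ∧ F2'.Nonempty ∧ F1' ∪ F2' ⊆ F1 ∪ F2 ∧
      ∀ x y, Relation.EqvGen (fun a b => ∃ t ∈ F1' ∪ F2', b = t a) x y := by
    by_cases n1 : F1.Nonempty
    · by_cases n2 : F2.Nonempty
      · exact ⟨F1, F2, h1, h2, n1, n2, le_refl _, hc⟩
      · rw [Set.not_nonempty_iff_eq_empty] at n2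
        refine ⟨F1, F1, h1, h1, n1, n1, ?_, ?_⟩
        · rw [Set.union_self]
          exact Set.subset_union_left
        · rw [n2, Set.union_empty] at hc
          rw [Set.union_self]
          exact hc
    · rw [Set.not_nonempty_iff_eq_empty] at n1
      by_cases n2 : F2.Nonempty
      · refine ⟨F2, F2, h2, h2, n2, n2, ?_, ?_⟩
        · rw [Set.union_self]
          exact Set.subset_union_right
        · rw [n1, Set.empty_union] at hc
          rw [Set.union_self]
          exact hc
      · rw [Set.not_nonempty_iff_eq_empty] at n2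
        exfalso
        obtain ⟨x, y, hxy⟩ := exists_pair_ne X
        apply hxy
        have h := hc x y
        rw [n1, n2, Set.union_empty] at h
        induction h with
        | rel a b hab =>
          obtain ⟨t, ht, _⟩ := hab
          exact absurd ht (Set.notMem_empty _)
        | refl a => rfl
        | symm a b _ ih =>
          by_contra hne
          exact (ih (fun h => hne h.symm) |>.symm |> hne)
        | trans a b c _ _ ih1 ih2 =>
          by_contra hne
          by_cases hab : a = b
          · subst hab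
            exact hne (ih2 hne)
          · exact hab (ih1 hab)
  obtain ⟨s1, hs1⟩ := n1
  obtain ⟨s2, hs2⟩ := n2
  have horbE : ∀ F : Set (X → X), Equivalence (Orb F) := fun F =>
    ⟨fun x => Orb.refl x, fun h => h.symm, fun h h' => h.trans h'⟩
  have hgood : ∀ F : Set (X → X), Comm F → ∀ x, Good {y | Orb F x y} (fun a b => ∃ t ∈ F, b = t a) := by
    intro F hF x
    have h := good_orb _ (Set.toFinite F).toFinset rfl (by rw [Set.Finite.coe_toFinset]; exact hF) x
    rw [Set.Finite.coe_toFinset] at h
    intro f hf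
    obtain ⟨g, hg, hgE, hgc⟩ := h f hf
    refine ⟨g, hg, fun y hy => ?_, hgc⟩
    obtain ⟨t, ht, h'⟩ := hgE y hy
    exact ⟨t, (Set.Finite.mem_toFinset _).1 ht, h'⟩
  obtain ⟨f, g, hf, hg, hfE, hgE, hcc⟩ := merge (Orb F1') (Orb F2')
    (fun a b => ∃ t ∈ F1', b = t a) (fun a b => ∃ t ∈ F2', b = t a) (horbE _) (horbE _)
    (hgood _ h1') (hgood _ h2') (by
      intro x y
      induction hc' x y with
      | rel a b hab =>
        obtain ⟨t, ht | ht, rfl⟩ := hab
        · exact Relation.EqvGen.rel _ _ (Or.inl (Orb.step ht a))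
        · exact Relation.EqvGen.rel _ _ (Or.inr (Orb.step ht a))
      | refl a => exact Relation.EqvGen.refl _
      | symm a b _ ih => exact Relation.EqvGen.symm _ _ ih
      | trans a b c _ _ ih1 ih2 => exact Relation.EqvGen.trans _ _ _ ih1 ih2)
    s1 s2 (fun x _ => ⟨trivial, h1'.inv s1 hs1 x, h1'.fpf s1 hs1 x⟩)
    (fun x _ => ⟨trivial, h2'.inv s2 hs2 x, h2'.fpf s2 hs2 x⟩)
    (fun x => Orb.step hs1 x) (fun x => Orb.step hs2 x) (fun x => ⟨s1, hs1, rfl⟩)
    (fun x => ⟨s2, hs2, rfl⟩)
  obtain ⟨w, hw0, hws, hwn, hwi, _⟩ := exists_cycle (fun x => (hf x trivial).2)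
    (fun x => (hg x trivial).2) hcc x0
  refine ⟨w, hw0, ?_, hwn, hwi⟩
  intro k
  rcases hws k with h | h
  · obtain ⟨t, ht, h'⟩ := hfE (w k)
    exact ⟨t, hs (Or.inl ht), by rw [h, h']⟩
  · obtain ⟨t, ht, h'⟩ := hgE (w k)
    exact ⟨t, hs (Or.inr ht), by rw [h, h']⟩

section parts

variable {G : Type*} [Group G] [Finite G]

/-- a nonempty set of pairwise commuting involutions generates a subgroup of even order with the
pairing property -/
theorem part_comm (A S : Set G) (hne : S.Nonempty) (hS : S ⊆ A)
    (h2 : ∀ s ∈ S, s ≠ 1 ∧ s * s = 1) (hc : ∀ s ∈ S, ∀ t ∈ S, s * t = t * s) :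
    Even (Nat.card (Subgroup.closure S)) ∧
      Pairing (Subgroup.closure S) {h | (h : G) ∈ A} := by
  constructor
  · obtain ⟨s, hs⟩ := hne
    obtain ⟨s', hs'⟩ : ∃ s' : Subgroup.closure S, s' = ⟨s, Subgroup.subset_closure hs⟩ := ⟨_, rfl⟩
    have h3 : orderOf s' = 2 := by
      rw [orderOf_eq_prime_iff]
      constructor
      · apply Subtype.ext
        rw [hs', pow_two]
        exact (h2 s hs).2
      · intro h
        apply (h2 s hs).1
        rw [hs'] at h
        exact congrArg Subtype.val h
    have h4 : orderOf s' ∣ Nat.card (Subgroup.closure S) := orderOf_dvd_natCard s'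
    rw [h3] at h4
    exact (even_iff_two_dvd).2 h4
  · refine Pairing.mono (pairing_comm {h : Subgroup.closure S | (h : G) ∈ S} ?_ ?_ ?_) ?_
    · intro b hb
      obtain ⟨h3, h4⟩ := h2 _ hb
      refine ⟨?_, ?_⟩
      · intro h
        exact h3 (by rw [h]; rfl)
      · exact Subtype.ext h4
    · intro a ha b hb
      exact Subtype.ext (hc _ ha _ hb)
    · exact Subgroup.closure_closure_coe_preimage
    · intro h hh
      exact hS hh

/-- the nonidentity elements of a subgroup have the pairing property -/
theorem part_complete (A : Set G) (K : Subgroup G) (hK : ∀ k ∈ K, k ≠ 1 → k ∈ A) :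
    Pairing K {h | (h : G) ∈ A} := by
  refine Pairing.mono (pairing_complete K) ?_
  intro h hh
  exact hK _ h.2 (fun h' => hh (Subtype.ext h'))

end parts

end Pool.Agent.Q27.HC
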