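import Pool.Agent.Q27.HC.Pair

/-!
# Orbits of commuting involutions are good, and so are complete graphs of even order
-/

set_option autoImplicit false

namespace Pool.Agent.Q27.HC

variable {X : Type*}

/-- the relation generated by a set of maps -/
def Orb (T : Set (X → X)) : X → X → Prop := Relation.EqvGen (fun a b => ∃ t ∈ T, b = t a)

theorem Orb.refl {T : Set (X → X)} (x : X) : Orb T x x := Relation.EqvGen.refl x

theorem Orb.symm {T : Set (X → X)} {x y : X} (h : Orb T x y) : Orb T y x :=
  Relation.EqvGen.symm _ _ h

theorem Orb.trans {T : Set (X → X)} {x y z : X} (h : Orb T x y) (h' : Orb T y z) : Orb T x z :=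
  Relation.EqvGen.trans _ _ _ h h'

theorem Orb.step {T : Set (X → X)} {t : X → X} (ht : t ∈ T) (x : X) : Orb T x (t x) :=
  Relation.EqvGen.rel _ _ ⟨t, ht, rfl⟩

theorem Orb.mono {T T' : Set (X → X)} (h : T ⊆ T') {x y : X} (hxy : Orb T x y) : Orb T' x y := by
  induction hxy with
  | rel a b hab =>
    obtain ⟨t, ht, rfl⟩ := hab
    exact Orb.step (h ht) a
  | refl a => exact Orb.refl a
  | symm a b _ ih => exact ih.symm
  | trans a b c _ _ ih1 ih2 => exact ih1.trans ih2

theorem Orb.map {T : Set (X → X)} {s : X → X} (h : ∀ t ∈ T, ∀ x, s (t x) = t (s x)) {x y : X}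
    (hxy : Orb T x y) : Orb T (s x) (s y) := by
  induction hxy with
  | rel a b hab =>
    obtain ⟨t, ht, rfl⟩ := hab
    rw [h t ht a]
    exact Orb.step ht _
  | refl a => exact Orb.refl _
  | symm a b _ ih => exact ih.symm
  | trans a b c _ _ ih1 ih2 => exact ih1.trans ih2

/-- a set of pairwise commuting involutions without fixed points -/
structure Comm (T : Set (X → X)) : Prop where
  inv : ∀ t ∈ T, ∀ x, t (t x) = x
  fpf : ∀ t ∈ T, ∀ x, t x ≠ x
  comm : ∀ s ∈ T, ∀ t ∈ T, ∀ x, s (t x) = t (s x)

theorem Comm.mono {T T' : Set (X → X)} (h : Comm T) (h' : T' ⊆ T) : Comm T' :=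
  ⟨fun t ht => h.inv t (h' ht), fun t ht => h.fpf t (h' ht),
    fun s hs t ht => h.comm s (h' hs) t (h' ht)⟩

theorem orb_insert {T T' : Set (X → X)} (h : Comm T) (hT : T' ⊆ T) {j : X → X} (hj : j ∈ T)
    {x y : X} (hxy : Orb (insert j T') x y) : Orb T' x y ∨ Orb T' (j x) y := by
  have hjc : ∀ t ∈ T', ∀ x, j (t x) = t (j x) := fun t ht => h.comm j hj t (hT ht)
  induction hxy with
  | rel a b hab =>
    obtain ⟨t, ht, rfl⟩ := hab
    rcases ht with ht | ht
    · right
      rw [ht]
      exact Orb.refl _
    · left
      exact Orb.step ht a
  | refl a => exact Or.inl (Orb.refl a)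
  | symm a b _ ih =>
    rcases ih with ih | ih
    · exact Or.inl ih.symm
    · right
      have h1 := Orb.map hjc ih
      rw [h.inv j hj] at h1
      exact h1.symm
  | trans a b c _ _ ih1 ih2 =>
    rcases ih1 with ih1 | ih1 <;> rcases ih2 with ih2 | ih2
    · exact Or.inl (ih1.trans ih2)
    · exact Or.inr ((Orb.map hjc ih1).trans ih2)
    · exact Or.inr (ih1.trans ih2)
    · left
      have h1 := Orb.map hjc ih1
      rw [h.inv j hj] at h1
      exact h1.trans ih2

/-- **Fink's theorem**, in the form for orbits of finite sets of pairwise commuting involutions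
without fixed points: every pairing of an orbit is completed to a connected union of two pairings
by a pairing along edges. -/
theorem good_orb [Finite X] : ∀ (n : ℕ) (T : Finset (X → X)), T.card = n → Comm (T : Set (X → X)) →
    ∀ x : X, Good {y | Orb (T : Set (X → X)) x y} (fun a b => ∃ t ∈ T, b = t a) := by
  classical
  intro n
  induction n using Nat.strong_induction_on with
  | _ n ih =>
    intro T hn hT x f hf
    have hx : x ∈ {y | Orb (T : Set (X → X)) x y} := Orb.refl x
    obtain ⟨h1, h2, h3⟩ := hf x hx
    have h1' : Orb (T : Set (X → X)) x (f x) := h1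
    -- a maximal subset which does not connect `x` and `f x`
    obtain ⟨F, hF⟩ : ∃ F : Finset (Finset (X → X)),
        F = T.powerset.filter (fun T' : Finset (X → X) => ¬ Orb (T' : Set (X → X)) x (f x)) := ⟨_, rfl⟩
    have mF : ∀ T', T' ∈ F ↔ T' ⊆ T ∧ ¬ Orb (T' : Set (X → X)) x (f x) := by
      intro T'
      rw [hF, Finset.mem_filter, Finset.mem_powerset]
    have hempty : ∀ a b : X, Orb ((∅ : Finset (X → X)) : Set (X → X)) a b → a = b := by
      intro a b h
      induction h with
      | rel a b hab =>
        obtain ⟨t, ht, _⟩ := hab
        exact absurd ht (by simp)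
      | refl a => rfl
      | symm a b _ ih => exact ih.symm
      | trans a b c _ _ ih1 ih2 => exact ih1.trans ih2
    have hFne : F.Nonempty := by
      refine ⟨∅, (mF _).2 ⟨Finset.empty_subset _, ?_⟩⟩
      intro h
      exact h3 (hempty _ _ h).symm
    obtain ⟨T', hT'F, hmax⟩ := Finset.exists_max_image F Finset.card hFne
    obtain ⟨hT'T, hT'n⟩ := (mF T').1 hT'F
    have hmem : ∀ j ∈ T, j ∉ T' → Orb (T' : Set (X → X)) (j x) (f x) := by
      intro j hj hjT'
      have h4 : Orb ((insert j T' : Finset (X → X)) : Set (X → X)) x (f x) := by
        by_contra hcon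
        have h5 := hmax _ ((mF (insert j T')).2 ⟨Finset.insert_subset hj hT'T, hcon⟩)
        rw [Finset.card_insert_of_notMem hjT'] at h5
        omega
      rw [Finset.coe_insert] at h4
      rcases orb_insert hT (by exact_mod_cast hT'T) (by exact_mod_cast hj) h4 with h5 | h5
      · exact absurd h5 hT'n
      · exact h5
    obtain ⟨i, hiT, hiT'⟩ : ∃ i ∈ T, i ∉ T' := by
      by_contra hcon
      push Not at hcon
      have h5 : T' = T := Finset.Subset.antisymm hT'T hcon
      rw [h5] at hT'n
      exact hT'n h1'
    have hcard : T'.card < n := by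
      rw [← hn]
      apply Finset.card_lt_card
      rw [Finset.ssubset_iff_of_subset hT'T]
      exact ⟨i, hiT, hiT'⟩
    have hTc : Comm (T' : Set (X → X)) := hT.mono (by exact_mod_cast hT'T)
    have hcom : ∀ s ∈ T, ∀ t ∈ (T' : Set (X → X)), ∀ y, s (t y) = t (s y) :=
      fun s hs t ht => hT.comm s (by exact_mod_cast hs) t (by exact_mod_cast hT'T ht)
    -- the orbit splits
    have hsplit : {y | Orb (T : Set (X → X)) x y} =
        {y | Orb (T' : Set (X → X)) x y} ∪ {y | Orb (T' : Set (X → X)) (i x) y} := by
      ext y
      constructor
      · intro hy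
        have hy' : Orb (T : Set (X → X)) x y := hy
        have key : ∀ a b, Orb (T : Set (X → X)) a b →
            ((Orb (T' : Set (X → X)) x a ∨ Orb (T' : Set (X → X)) (i x) a) ↔
              (Orb (T' : Set (X → X)) x b ∨ Orb (T' : Set (X → X)) (i x) b)) := by
          have one : ∀ j ∈ T, ∀ a, (Orb (T' : Set (X → X)) x a ∨ Orb (T' : Set (X → X)) (i x) a) →
              (Orb (T' : Set (X → X)) x (j a) ∨ Orb (T' : Set (X → X)) (i x) (j a)) := by
            intro j hj a ha
            by_cases hjT' : j ∈ T'
            · rcases ha with ha | ha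
              · exact Or.inl (ha.trans (Orb.step (by exact_mod_cast hjT') a))
              · exact Or.inr (ha.trans (Orb.step (by exact_mod_cast hjT') a))
            · have h6 : Orb (T' : Set (X → X)) (i x) (j x) :=
                (hmem i hiT hiT').trans (hmem j hj hjT').symm
              rcases ha with ha | ha
              · exact Or.inr (h6.trans (Orb.map (hcom j hj) ha))
              · left
                have h7 := Orb.map (hcom i hiT) h6
                rw [hT.inv i (by exact_mod_cast hiT)] at h7
                have h8 := Orb.map (hcom j hj) ha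
                rw [hT.comm j (by exact_mod_cast hj) i (by exact_mod_cast hiT)] at h8
                exact h7.trans h8
          intro a b h
          induction h with
          | rel a b hab =>
            obtain ⟨t, ht, rfl⟩ := hab
            refine ⟨one t (by exact_mod_cast ht) a, fun h => ?_⟩
            have h9 := one t (by exact_mod_cast ht) _ h
            rwa [hT.inv t ht] at h9
          | refl a => exact Iff.rfl
          | symm a b _ ih => exact ih.symm
          | trans a b c _ _ ih1 ih2 => exact ih1.trans ih2
        exact (key x y hy').1 (Or.inl (Orb.refl x))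
      · rintro (hy | hy)
        · exact Orb.mono (by exact_mod_cast hT'T) hy
        · exact (Orb.step (by exact_mod_cast hiT) x).trans (Orb.mono (by exact_mod_cast hT'T) hy)
    have hdisj : Disjoint {y | Orb (T' : Set (X → X)) x y} {y | Orb (T' : Set (X → X)) (i x) y} := by
      rw [Set.disjoint_left]
      intro y hy hy'
      have h10 : Orb (T' : Set (X → X)) x y := hy
      have h11 : Orb (T' : Set (X → X)) (i x) y := hy'
      exact hT'n (h10.trans (h11.symm.trans (hmem i hiT hiT')))
    rw [hsplit] at hf ⊢
    by_cases hne : T'.Nonempty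
    · obtain ⟨j, hj⟩ := hne
      have e1 : ∀ x, Good {y | Orb (T' : Set (X → X)) x y} (fun a b => ∃ t ∈ T, b = t a) := by
        intro x f hf
        obtain ⟨g, hg, hgE, hgc⟩ := ih _ hcard T' rfl hTc x f hf
        exact ⟨g, hg, fun y hy => by
          obtain ⟨t, ht, h⟩ := hgE y hy
          exact ⟨t, hT'T ht, h⟩, hgc⟩
      refine split hdisj (e1 x) (e1 (i x)) (fun y => j y) ?_ f hf x (Orb.refl x)
        (hmem i hiT hiT')
      intro y hy
      refine ⟨?_, hT.inv j (by exact_mod_cast hT'T hj) y, hT.fpf j (by exact_mod_cast hT'T hj) y⟩
      have hy' : Orb (T' : Set (X → X)) x y := hy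
      exact hy'.trans (Orb.step (by exact_mod_cast hj) y)
    · rw [Finset.not_nonempty_iff_eq_empty] at hne
      have s0 : ∀ z, {y | Orb (T' : Set (X → X)) z y} = {z} := by
        intro z
        ext y
        rw [Set.mem_singleton_iff]
        constructor
        · intro hy
          rw [hne] at hy
          exact (hempty _ _ hy).symm
        · rintro rfl
          exact Orb.refl _
      rw [s0, s0] at hf ⊢
      have hiT2 : i ∈ (T : Set (X → X)) := by exact_mod_cast hiT
      refine ⟨i, ?_, fun y _ => ⟨i, hiT, rfl⟩, ?_⟩
      · rintro y (hy | hy)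
        · rw [Set.mem_singleton_iff] at hy
          subst hy
          exact ⟨Or.inr rfl, hT.inv i hiT2 _, hT.fpf i hiT2 _⟩
        · rw [Set.mem_singleton_iff] at hy
          subst hy
          exact ⟨Or.inl (hT.inv i hiT2 _), hT.inv i hiT2 _, hT.fpf i hiT2 _⟩
      · have c1 : Rel ({x} ∪ {i x}) f i x (i x) := Rel.right (Or.inl rfl)
        rintro a (ha | ha) b (hb | hb)
        · rw [Set.mem_singleton_iff] at ha hb
          subst ha
          subst hb
          exact Rel.refl _
        · rw [Set.mem_singleton_iff] at ha hb
          subst ha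
          subst hb
          exact c1
        · rw [Set.mem_singleton_iff] at ha hb
          subst ha
          subst hb
          exact c1.symm
        · rw [Set.mem_singleton_iff] at ha hb
          subst ha
          subst hb
          exact Rel.refl _

/-- complete graphs -/
theorem good_complete [Finite X] : ∀ (n : ℕ) (S : Finset X), S.card = n →
    Good (S : Set X) (fun a b => b ≠ a ∧ b ∈ S) := by
  classical
  intro n
  induction n using Nat.strong_induction_on with
  | _ n ih =>
    intro S hn f hf
    by_cases hne : S.Nonempty
    · obtain ⟨z, hz⟩ := hne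
      obtain ⟨h1, h2, h3⟩ := hf z (by exact_mod_cast hz)
      have h1' : f z ∈ S := by exact_mod_cast h1
      by_cases hmore : ∃ u ∈ S, u ≠ z ∧ u ≠ f z
      · obtain ⟨u, hu, huz, hufz⟩ := hmore
        obtain ⟨S1, hS1⟩ : ∃ S1 : Finset X, S1 = (S.erase z).erase u := ⟨_, rfl⟩
        have m1 : ∀ y, y ∈ S1 ↔ y ≠ u ∧ y ≠ z ∧ y ∈ S := by
          intro y
          rw [hS1, Finset.mem_erase, Finset.mem_erase]
        have hcard : S1.card < n := by
          rw [← hn]
          apply Finset.card_lt_card
          rw [Finset.ssubset_iff_of_subset (fun y hy => ((m1 y).1 hy).2.2)]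
          exact ⟨z, hz, fun h => ((m1 z).1 h).2.1 rfl⟩
        have hSu : (S : Set X) = {z, u} ∪ (S1 : Set X) := by
          ext y
          simp only [Finset.mem_coe, Set.mem_union, Set.mem_insert_iff, Set.mem_singleton_iff, m1]
          constructor
          · intro hy
            by_cases h : y = z
            · exact Or.inl (Or.inl h)
            · by_cases h' : y = u
              · exact Or.inl (Or.inr h')
              · exact Or.inr ⟨h', h, hy⟩
          · rintro ((rfl | rfl) | ⟨_, _, h⟩)
            · exact hz
            · exact hu
            · exact h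
        have hdisj : Disjoint ({z, u} : Set X) (S1 : Set X) := by
          rw [Set.disjoint_left]
          intro y hy hy'
          rw [Finset.mem_coe, m1] at hy'
          rcases hy with hy | hy
          · exact hy'.2.1 hy
          · exact hy'.1 hy
        have g0 : Good ({z, u} : Set X) (fun a b => b ≠ a ∧ b ∈ S) := by
          intro f' hf'
          obtain ⟨g, hg⟩ : ∃ g : X → X, g = fun y => if y = z then u else z := ⟨_, rfl⟩
          have gz : g z = u := by rw [hg]; simp
          have gu : g u = z := by rw [hg]; simp [huz]
          refine ⟨g, ?_, ?_, ?_⟩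
          · rintro y (rfl | hy)
            · rw [gz, gu]
              exact ⟨Or.inr rfl, rfl, huz⟩
            · rw [Set.mem_singleton_iff] at hy
              subst hy
              rw [gu, gz]
              exact ⟨Or.inl rfl, rfl, fun h => huz h.symm⟩
          · rintro y (rfl | hy)
            · rw [gz]
              exact ⟨huz, hu⟩
            · rw [Set.mem_singleton_iff] at hy
              subst hy
              rw [gu]
              exact ⟨fun h => huz h.symm, hz⟩
          · have c1 : Rel ({z, u} : Set X) f' g z u := by
              have := Rel.right (S := ({z, u} : Set X)) (f := f') (g := g) (x := z) (Or.inl rfl)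
              rwa [gz] at this
            rintro a (ha | ha) b (hb | hb)
            · rw [ha, hb]; exact Rel.refl _
            · rw [Set.mem_singleton_iff] at hb
              rw [ha, hb]; exact c1
            · rw [Set.mem_singleton_iff] at ha
              rw [ha, hb]; exact c1.symm
            · rw [Set.mem_singleton_iff] at ha hb
              rw [ha, hb]; exact Rel.refl _
        have g1 : Good (S1 : Set X) (fun a b => b ≠ a ∧ b ∈ S) := by
          intro f' hf'
          obtain ⟨g, hg, hgE, hgc⟩ := ih _ hcard S1 rfl f' hf'
          exact ⟨g, hg, fun y hy => ⟨(hgE y hy).1, ((m1 _).1 (hgE y hy).2).2.2⟩, hgc⟩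
        rw [hSu] at hf ⊢
        refine split hdisj g0 g1 (fun y => if y = z then u else z) ?_ f hf z (Or.inl rfl) ?_
        · rintro y (rfl | hy)
          · refine ⟨?_, ?_, ?_⟩
            · simp
            · simp [huz]
            · simpa using huz
          · rw [Set.mem_singleton_iff] at hy
            subst hy
            refine ⟨?_, ?_, ?_⟩
            · simp [huz]
            · simp [huz]
            · simp only [if_neg huz]
              exact fun h => huz h.symm
        · exact_mod_cast (m1 _).2 ⟨fun h => hufz h.symm, h3, h1'⟩
      · push Not at hmore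
        have hS : ∀ y ∈ S, y = z ∨ y = f z := by
          intro y hy
          by_cases h : y = z
          · exact Or.inl h
          · exact Or.inr (hmore y hy h)
        refine ⟨f, hf, ?_, ?_⟩
        · intro y hy
          obtain ⟨k1, _, k3⟩ := hf y hy
          exact ⟨k3, by exact_mod_cast k1⟩
        · have c1 : Rel (S : Set X) f f z (f z) := Rel.left (by exact_mod_cast hz)
          intro a ha b hb
          rcases hS a (by exact_mod_cast ha) with h | h <;>
            rcases hS b (by exact_mod_cast hb) with h' | h'
          · rw [h, h']; exact Rel.refl _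
          · rw [h, h']; exact c1
          · rw [h, h']; exact c1.symm
          · rw [h, h']; exact Rel.refl _
    · refine ⟨f, hf, ?_, ?_⟩
      · intro y hy
        exact absurd ⟨y, by exact_mod_cast hy⟩ hne
      · intro y hy
        exact absurd ⟨y, by exact_mod_cast hy⟩ hne

end Pool.Agent.Q27.HC
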