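import Pool.Agent.Q27.HC.Cube

/-!
# A connected union of two pairings is a cycle
-/

set_option autoImplicit false

namespace Pool.Agent.Q27.HC

variable {X : Type*}

/-- one step of the alternating walk -/
def T2 (f g : X → X) (v : X × Bool) : X × Bool := (if v.2 then f v.1 else g v.1, !v.2)

/-- one step back -/
def U2 (f g : X → X) (v : X × Bool) : X × Bool := (if v.2 then g v.1 else f v.1, !v.2)

/-- the change of direction -/
def J2 (v : X × Bool) : X × Bool := (v.1, !v.2)

section walk

variable {f g : X → X} (hf : ∀ x, f (f x) = x ∧ f x ≠ x) (hg : ∀ x, g (g x) = x ∧ g x ≠ x)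

include hf hg in
theorem U2_T2 (v : X × Bool) : U2 f g (T2 f g v) = v := by
  obtain ⟨x, b⟩ := v
  cases b
  · simp [T2, U2, (hg x).1]
  · simp [T2, U2, (hf x).1]

include hf hg in
theorem T2_U2 (v : X × Bool) : T2 f g (U2 f g v) = v := by
  obtain ⟨x, b⟩ := v
  cases b
  · simp [T2, U2, (hf x).1]
  · simp [T2, U2, (hg x).1]

theorem U2_J2 (v : X × Bool) : U2 f g (J2 v) = J2 (T2 f g v) := by
  obtain ⟨x, b⟩ := v
  cases b
  · simp [T2, U2, J2]
  · simp [T2, U2, J2]

include hf hg in
theorem J2_ne : ∀ (m : ℕ) (v : X × Bool), J2 v ≠ (T2 f g)^[m] v := by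
  intro m
  induction m using Nat.strong_induction_on with
  | _ m ih =>
    intro v h
    rcases m with _ | m
    · obtain ⟨x, b⟩ := v
      simp [J2] at h
    · rcases m with _ | m
      · obtain ⟨x, b⟩ := v
        cases b
        · simp only [J2, Function.iterate_succ, Function.iterate_zero, Function.comp_apply, T2,
            id_eq, Prod.mk.injEq] at h
          exact (hg x).2 (by simpa using h.1.symm)
        · simp only [J2, Function.iterate_succ, Function.iterate_zero, Function.comp_apply, T2,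
            id_eq, Prod.mk.injEq] at h
          exact (hf x).2 (by simpa using h.1.symm)
      · have h1 := congrArg (U2 f g) h
        rw [U2_J2, Function.iterate_succ_apply', U2_T2 hf hg, Function.iterate_succ_apply] at h1
        exact ih m (by omega) _ h1

end walk

/-- a connected union of two pairings of a finite set is a cycle through all its elements -/
theorem exists_cycle [Finite X] {f g : X → X} (hf : ∀ x, f (f x) = x ∧ f x ≠ x)
    (hg : ∀ x, g (g x) = x ∧ g x ≠ x) (hc : ∀ x y, Rel Set.univ f g x y) (x0 : X) :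
    ∃ w : ℕ → X, w 0 = x0 ∧ (∀ k, w (k + 1) = f (w k) ∨ w (k + 1) = g (w k)) ∧
      w (Nat.card X) = x0 ∧ (∀ i j, i < Nat.card X → j < Nat.card X → w i = w j → i = j) ∧
      (∀ y, ∃ i < Nat.card X, w i = y) := by
  classical
  have hinj : Function.Injective (T2 f g) := by
    intro a b hab
    rw [← U2_T2 hf hg a, hab, U2_T2 hf hg]
  obtain ⟨w0, hw0⟩ : ∃ w0 : X × Bool, w0 = (x0, true) := ⟨_, rfl⟩
  obtain ⟨p, hp⟩ : ∃ p, p = Function.minimalPeriod (T2 f g) w0 := ⟨_, rfl⟩
  have hper : w0 ∈ Function.periodicPts (T2 f g) := hinj.mem_periodicPts w0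
  have hp0 : 0 < p := by
    rw [hp]
    exact Function.minimalPeriod_pos_of_mem_periodicPts hper
  have hpp : (T2 f g)^[p] w0 = w0 := by
    rw [hp]
    exact Function.isPeriodicPt_minimalPeriod _ _
  have key : ∀ i j, i ≤ j → j < p → ((T2 f g)^[i] w0).1 = ((T2 f g)^[j] w0).1 → i = j := by
    intro i j hij hj h
    by_contra hne
    have hlt : i < j := by omega
    have h2 : (T2 f g)^[j] w0 = (T2 f g)^[j - i] ((T2 f g)^[i] w0) := by
      rw [← Function.iterate_add_apply]
      congr 1
      omega
    by_cases hb : ((T2 f g)^[i] w0).2 = ((T2 f g)^[j] w0).2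
    · have h3 : (T2 f g)^[i] w0 = (T2 f g)^[j] w0 := Prod.ext h hb
      rw [h2] at h3
      have h4 : (T2 f g)^[i] ((T2 f g)^[j - i] w0) = (T2 f g)^[i] w0 := by
        rw [← Function.iterate_add_apply, Nat.add_comm, Function.iterate_add_apply]
        exact h3.symm
      have h5 : (T2 f g)^[j - i] w0 = w0 := (hinj.iterate i) h4
      have h6 : p ≤ j - i := by
        rw [hp]
        exact Function.IsPeriodicPt.minimalPeriod_le (by omega) h5
      omega
    · apply J2_ne hf hg (j - i) ((T2 f g)^[i] w0)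
      rw [← h2]
      refine Prod.ext h ?_
      simp only [J2]
      revert hb
      generalize ((T2 f g)^[i] w0).2 = a
      generalize ((T2 f g)^[j] w0).2 = b
      cases a <;> cases b <;> simp
  have hsur : ∀ y, ∃ k, ((T2 f g)^[k] w0).1 = y := by
    intro y
    have back : ∀ k, ∃ k', (T2 f g)^[k'] w0 = U2 f g ((T2 f g)^[k] w0) := by
      intro k
      refine ⟨k + p - 1, ?_⟩
      have h1 : (T2 f g)^[k] w0 = T2 f g ((T2 f g)^[k + p - 1] w0) := by
        rw [← Function.iterate_succ_apply' (T2 f g)]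
        rw [show (k + p - 1).succ = k + p by omega, Function.iterate_add_apply, hpp]
      rw [h1, U2_T2 hf hg]
    have hinvf : ∀ a, (∃ k, ((T2 f g)^[k] w0).1 = a) → (∃ k, ((T2 f g)^[k] w0).1 = f a) := by
      rintro a ⟨k, hk⟩
      by_cases hb : ((T2 f g)^[k] w0).2 = true
      · refine ⟨k + 1, ?_⟩
        rw [Function.iterate_succ_apply']
        simp [T2, hb, hk]
      · obtain ⟨k', hk'⟩ := back k
        refine ⟨k', ?_⟩
        rw [hk']
        simp [U2, hb, hk]
    have hinvg : ∀ a, (∃ k, ((T2 f g)^[k] w0).1 = a) → (∃ k, ((T2 f g)^[k] w0).1 = g a) := by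
      rintro a ⟨k, hk⟩
      by_cases hb : ((T2 f g)^[k] w0).2 = true
      · obtain ⟨k', hk'⟩ := back k
        refine ⟨k', ?_⟩
        rw [hk']
        simp [U2, hb, hk]
      · refine ⟨k + 1, ?_⟩
        rw [Function.iterate_succ_apply']
        simp [T2, hb, hk]
    have h := Rel.inv (S := Set.univ) (f := f) (g := g)
      (P := fun a => ∃ k, ((T2 f g)^[k] w0).1 = a) (x := x0) (y := y)
      (fun a _ => ⟨hinvf a, fun h => by
        have := hinvf _ h
        rwa [(hf a).1] at this⟩)
      (fun a _ => ⟨hinvg a, fun h => by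
        have := hinvg _ h
        rwa [(hg a).1] at this⟩) (hc x0 y)
    exact h.1 ⟨0, by rw [hw0]; rfl⟩
  have hmod : ∀ k, (T2 f g)^[k % p] w0 = (T2 f g)^[k] w0 := by
    intro k
    rw [hp]
    exact Function.iterate_mod_minimalPeriod_eq
  have hcard : Nat.card X = p := by
    have e : Fin p ≃ X := Equiv.ofBijective (fun i => ((T2 f g)^[(i : ℕ)] w0).1) (by
      constructor
      · intro i j hij
        apply Fin.ext
        rcases le_total (i : ℕ) (j : ℕ) with h | h
        · exact key _ _ h j.2 hij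
        · exact (key _ _ h i.2 hij.symm).symm
      · intro y
        obtain ⟨k, hk⟩ := hsur y
        exact ⟨⟨k % p, Nat.mod_lt _ hp0⟩, by
          show ((T2 f g)^[k % p] w0).1 = y
          rw [hmod, hk]⟩)
    rw [← Nat.card_congr e, Nat.card_eq_fintype_card, Fintype.card_fin]
  refine ⟨fun k => ((T2 f g)^[k] w0).1, ?_, ?_, ?_, ?_, ?_⟩
  · rw [hw0]
    rfl
  · intro k
    show ((T2 f g)^[k + 1] w0).1 = _ ∨ ((T2 f g)^[k + 1] w0).1 = _
    rw [Function.iterate_succ_apply']
    by_cases hb : ((T2 f g)^[k] w0).2 = true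
    · left
      simp [T2, hb]
    · right
      simp [T2, hb]
  · show ((T2 f g)^[Nat.card X] w0).1 = x0
    rw [hcard, hpp, hw0]
  · intro i j hi hj hij
    rw [hcard] at hi hj
    rcases le_total i j with h | h
    · exact key _ _ h hj hij
    · exact (key _ _ h hi hij.symm).symm
  · intro y
    obtain ⟨k, hk⟩ := hsur y
    refine ⟨k % p, by rw [hcard]; exact Nat.mod_lt _ hp0, ?_⟩
    show ((T2 f g)^[k % p] w0).1 = y
    rw [hmod, hk]

end Pool.Agent.Q27.HC
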