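import Pool.Agent.Q27.HC.Cycle

/-!
# Closed listing sequences from two subgroups with the pairing property
-/

set_option autoImplicit false

namespace Pool.Agent.Q27.HC

/-- The pairing property of the Cayley graph `Cay(H, B)`: for every pairing `f` of the elements of
`H` there is a pairing `g` of the elements of `H` along edges of `Cay(H, B)` such that `f` and `g`
together connect all of `H` (form one cycle through all elements of `H`). -/
def Pairing (H : Type*) [Group H] (B : Set H) : Prop :=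
  ∀ f : H → H, (∀ x, f (f x) = x ∧ f x ≠ x) →
    ∃ g : H → H, (∀ x, g (g x) = x ∧ g x ≠ x) ∧ (∀ x, x⁻¹ * g x ∈ B) ∧
      ∀ x y : H, Relation.EqvGen (fun a b => b = f a ∨ b = g a) x y

theorem rel_univ {X : Type*} {f g : X → X} {x y : X} (h : Rel Set.univ f g x y) :
    Relation.EqvGen (fun a b => b = f a ∨ b = g a) x y := by
  induction h with
  | rel a b hab => exact Relation.EqvGen.rel _ _ hab.2
  | refl a => exact Relation.EqvGen.refl _
  | symm a b _ ih => exact Relation.EqvGen.symm _ _ ih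
  | trans a b c _ _ ih1 ih2 => exact Relation.EqvGen.trans _ _ _ ih1 ih2

theorem Pairing.mono {H : Type*} [Group H] {B B' : Set H} (h : Pairing H B) (hB : B ⊆ B') :
    Pairing H B' := by
  intro f hf
  obtain ⟨g, hg, hgB, hgc⟩ := h f hf
  exact ⟨g, hg, fun x => hB (hgB x), hgc⟩

/-- the orbit relation of a set of right multiplications -/
theorem orb_left {H : Type*} [Group H] {T : Set (H → H)} (hT : ∀ t ∈ T, ∃ b, ∀ y, t y = y * b)
    (c : H) {x y : H} (h : Orb T x y) : Orb T (c * x) (c * y) := by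
  refine Orb.map (s := fun z => c * z) ?_ h
  intro t ht z
  obtain ⟨b, hb⟩ := hT t ht
  show c * t z = t (c * z)
  rw [hb, hb, mul_assoc]

/-- **commuting involutions have the pairing property** (Fink) -/
theorem pairing_comm {H : Type*} [Group H] [Finite H] (B : Set H)
    (h2 : ∀ b ∈ B, b ≠ 1 ∧ b * b = 1) (hc : ∀ a ∈ B, ∀ b ∈ B, a * b = b * a)
    (hg : Subgroup.closure B = ⊤) : Pairing H B := by
  classical
  intro f hf
  obtain ⟨T, hT⟩ : ∃ T : Finset (H → H),
      T = (Set.toFinite ((fun b : H => fun y : H => y * b) '' B)).toFinset := ⟨_, rfl⟩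
  have mT : ∀ t, t ∈ T ↔ ∃ b ∈ B, (fun y => y * b) = t := by
    intro t
    rw [hT, Set.Finite.mem_toFinset]
    rfl
  have mT' : ∀ t ∈ (T : Set (H → H)), ∃ b ∈ B, ∀ y, t y = y * b := by
    intro t ht
    obtain ⟨b, hb, h⟩ := (mT t).1 (by exact_mod_cast ht)
    exact ⟨b, hb, fun y => by rw [← h]⟩
  have hTc : Comm (T : Set (H → H)) := by
    refine ⟨?_, ?_, ?_⟩
    · intro t ht x
      obtain ⟨b, hb, h⟩ := mT' t ht
      rw [h, h, mul_assoc, (h2 b hb).2, mul_one]
    · intro t ht x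
      obtain ⟨b, hb, h⟩ := mT' t ht
      rw [h]
      intro h'
      exact (h2 b hb).1 (by simpa using h')
    · intro s hs t ht x
      obtain ⟨a, ha, h⟩ := mT' s hs
      obtain ⟨b, hb, h'⟩ := mT' t ht
      rw [h, h', h', h, mul_assoc, mul_assoc, hc a ha b hb]
  have hleft : ∀ t ∈ (T : Set (H → H)), ∃ b, ∀ y, t y = y * b := by
    intro t ht
    obtain ⟨b, _, h⟩ := mT' t ht
    exact ⟨b, h⟩
  have horb : ∀ y, Orb (T : Set (H → H)) 1 y := by
    intro y
    have hy : y ∈ Subgroup.closure B := by rw [hg]; trivial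
    induction hy using Subgroup.closure_induction with
    | mem b hb =>
      have h3 : (fun y => y * b) ∈ (T : Set (H → H)) := by
        exact_mod_cast (mT _).2 ⟨b, hb, rfl⟩
      have h4 := Orb.step h3 1
      simpa using h4
    | one => exact Orb.refl _
    | mul a b _ _ iha ihb =>
      have h3 := orb_left hleft a ihb
      rw [mul_one] at h3
      exact iha.trans h3
    | inv a _ iha =>
      have h3 := orb_left hleft a⁻¹ iha
      rw [mul_one, inv_mul_cancel] at h3
      exact h3.symm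
  have huniv : {y | Orb (T : Set (H → H)) 1 y} = Set.univ := by
    ext y
    simp [horb y]
  have hgood := good_orb _ T rfl hTc 1
  rw [huniv] at hgood
  obtain ⟨g, hgI, hgE, hgc⟩ := hgood f (fun x _ => ⟨trivial, hf x⟩)
  refine ⟨g, fun x => (hgI x trivial).2, ?_, fun x y => rel_univ (hgc x trivial y trivial)⟩
  intro x
  obtain ⟨t, ht, h⟩ := hgE x trivial
  obtain ⟨b, hb, h'⟩ := mT' t (by exact_mod_cast ht)
  rw [h, h', inv_mul_cancel_left]
  exact hb

/-- **complete graphs have the pairing property** -/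
theorem pairing_complete (H : Type*) [Group H] [Finite H] : Pairing H {h | h ≠ 1} := by
  classical
  have := Fintype.ofFinite H
  intro f hf
  have hgood := good_complete (X := H) _ Finset.univ rfl
  rw [Finset.coe_univ] at hgood
  obtain ⟨g, hgI, hgE, hgc⟩ := hgood f (fun x _ => ⟨trivial, hf x⟩)
  refine ⟨g, fun x => (hgI x trivial).2, ?_, fun x y => rel_univ (hgc x trivial y trivial)⟩
  intro x h
  exact (hgI x trivial).2.2 (by rw [inv_mul_eq_one] at h; exact h.symm)

section grp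

variable {G : Type*} [Group G] [Finite G]

/-- cosets are good -/
theorem good_coset (A : Set G) (H : Subgroup G) (P : Pairing H {h | (h : G) ∈ A}) (x : G) :
    Good {y | x⁻¹ * y ∈ H} (fun a b => a⁻¹ * b ∈ A) := by
  classical
  intro f hf
  have hm : ∀ h : H, x * (h : G) ∈ {y | x⁻¹ * y ∈ H} := by
    intro h
    show x⁻¹ * (x * (h : G)) ∈ H
    rw [inv_mul_cancel_left]
    exact h.2
  obtain ⟨f', hf'⟩ : ∃ f' : H → H, f' = fun h => ⟨x⁻¹ * f (x * (h : G)), (hf _ (hm h)).1⟩ :=
    ⟨_, rfl⟩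
  have vf' : ∀ h : H, ((f' h : H) : G) = x⁻¹ * f (x * (h : G)) := by intro h; rw [hf']
  have vf : ∀ h : H, x * ((f' h : H) : G) = f (x * (h : G)) := by
    intro h; rw [vf', mul_inv_cancel_left]
  obtain ⟨g', hg', hgB, hgc⟩ := P f' (by
    intro h
    constructor
    · apply Subtype.ext
      rw [vf', vf, (hf _ (hm h)).2.1, inv_mul_cancel_left]
    · intro h'
      apply (hf _ (hm h)).2.2
      rw [← vf, h'])
  obtain ⟨g, hg⟩ : ∃ g : G → G, g = fun y => if h : x⁻¹ * y ∈ H then
      x * ((g' ⟨x⁻¹ * y, h⟩ : H) : G) else y := ⟨_, rfl⟩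
  have vg : ∀ h : H, g (x * (h : G)) = x * ((g' h : H) : G) := by
    intro h
    rw [hg]
    have h1 : x⁻¹ * (x * (h : G)) ∈ H := hm h
    have h2 : (⟨x⁻¹ * (x * (h : G)), h1⟩ : H) = h := by
      apply Subtype.ext
      exact inv_mul_cancel_left _ _
    simp only [dif_pos h1, h2]
  have rep : ∀ y ∈ {y | x⁻¹ * y ∈ H}, ∃ h : H, y = x * (h : G) := by
    intro y hy
    exact ⟨⟨x⁻¹ * y, hy⟩, by simp⟩
  refine ⟨g, ?_, ?_, ?_⟩
  · intro y hy
    obtain ⟨h, rfl⟩ := rep y hy
    rw [vg, vg, (hg' h).1]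
    refine ⟨hm _, rfl, ?_⟩
    intro h'
    exact (hg' h).2 (Subtype.ext (mul_left_cancel h'))
  · intro y hy
    obtain ⟨h, rfl⟩ := rep y hy
    rw [vg]
    have := hgB h
    simp only [Set.mem_setOf_eq, Subgroup.coe_mul, Subgroup.coe_inv] at this
    rwa [mul_inv_rev, mul_assoc, inv_mul_cancel_left]
  · intro y hy z hz
    obtain ⟨h, rfl⟩ := rep y hy
    obtain ⟨k, rfl⟩ := rep z hz
    have key : ∀ h k : H, Relation.EqvGen (fun a b => b = f' a ∨ b = g' a) h k →
        Rel {y | x⁻¹ * y ∈ H} f g (x * (h : G)) (x * (k : G)) := by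
      intro h k hk
      induction hk with
      | rel a b hab =>
        rcases hab with rfl | rfl
        · rw [vf]
          exact Rel.left (hm a)
        · rw [← vg]
          exact Rel.right (hm a)
      | refl a => exact Rel.refl _
      | symm a b _ ih => exact ih.symm
      | trans a b c _ _ ih1 ih2 => exact ih1.trans ih2
    exact key h k (hgc h k)

/-- the initial pairing -/
theorem initial (A : Set G) (H : Subgroup G) (e : Even (Nat.card H))
    (P : Pairing H {h | (h : G) ∈ A}) :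
    ∃ f0 : G → G, Inv Set.univ f0 ∧ (∀ x, x⁻¹ * f0 x ∈ H) ∧ ∀ x, x⁻¹ * f0 x ∈ A := by
  classical
  have : Fact (Nat.Prime 2) := ⟨Nat.prime_two⟩
  obtain ⟨t, ht⟩ := exists_prime_orderOf_dvd_card' (G := H) 2 e.two_dvd
  have ht1 : t ≠ 1 := by
    intro h
    rw [h, orderOf_one] at ht
    omega
  have ht2 : t * t = 1 := by
    rw [← pow_two, ← ht]
    exact pow_orderOf_eq_one t
  obtain ⟨g, hg, hgB, _⟩ := P (fun x => x * t) (by
    intro x
    refine ⟨?_, ?_⟩
    · show x * t * t = x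
      rw [mul_assoc, ht2, mul_one]
    · intro h
      exact ht1 (by simpa using h))
  obtain ⟨r, hr⟩ : ∃ r : G → G, ∀ y, (r y)⁻¹ * y ∈ H ∧ ∀ z, y⁻¹ * z ∈ H → r z = r y := by
    refine ⟨fun y => Quotient.out (QuotientGroup.mk y : G ⧸ H), fun y => ⟨?_, ?_⟩⟩
    · rw [← QuotientGroup.eq]
      exact QuotientGroup.out_eq' _
    · intro z hz
      have : (QuotientGroup.mk y : G ⧸ H) = QuotientGroup.mk z := QuotientGroup.eq.2 hz
      show Quotient.out (QuotientGroup.mk z : G ⧸ H) = Quotient.out (QuotientGroup.mk y : G ⧸ H)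
      rw [this]
  obtain ⟨f0, hf0⟩ : ∃ f0 : G → G, f0 = fun y => r y * ((g ⟨(r y)⁻¹ * y, (hr y).1⟩ : H) : G) :=
    ⟨_, rfl⟩
  have v0 : ∀ y, f0 y = r y * ((g ⟨(r y)⁻¹ * y, (hr y).1⟩ : H) : G) := by intro y; rw [hf0]
  have inH : ∀ y, y⁻¹ * f0 y ∈ H := by
    intro y
    have h1 : y⁻¹ * f0 y = ((r y)⁻¹ * y)⁻¹ * ((g ⟨(r y)⁻¹ * y, (hr y).1⟩ : H) : G) := by
      rw [v0]
      group
    rw [h1]
    exact H.mul_mem (H.inv_mem (hr y).1) (SetLike.coe_mem _)
  have rf : ∀ y, r (f0 y) = r y := fun y => (hr y).2 _ (inH y)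
  have part : ∀ y, (⟨(r (f0 y))⁻¹ * f0 y, (hr (f0 y)).1⟩ : H) = g ⟨(r y)⁻¹ * y, (hr y).1⟩ := by
    intro y
    apply Subtype.ext
    show (r (f0 y))⁻¹ * f0 y = _
    rw [rf, v0, inv_mul_cancel_left]
  refine ⟨f0, ?_, inH, ?_⟩
  · intro y _
    refine ⟨trivial, ?_, ?_⟩
    · rw [v0 (f0 y), part, (hg _).1, rf]
      exact mul_inv_cancel_left _ _
    · intro h
      have h1 := part y
      apply (hg ⟨(r y)⁻¹ * y, (hr y).1⟩).2
      rw [← h1]
      apply Subtype.ext
      show (r (f0 y))⁻¹ * f0 y = (r y)⁻¹ * y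
      rw [h]
  · intro y
    have h1 : y⁻¹ * f0 y = ((r y)⁻¹ * y)⁻¹ * ((g ⟨(r y)⁻¹ * y, (hr y).1⟩ : H) : G) := by
      rw [v0]
      group
    rw [h1]
    have := hgB ⟨(r y)⁻¹ * y, (hr y).1⟩
    simpa only [Set.mem_setOf_eq, Subgroup.coe_mul, Subgroup.coe_inv] using this

/-- **two subgroups with the pairing property give a closed walk through the whole group** -/
theorem closed_walk (A : Set G) (H1 H2 : Subgroup G) (e1 : Even (Nat.card H1))
    (e2 : Even (Nat.card H2)) (hG : H1 ⊔ H2 = ⊤) (P1 : Pairing H1 {h | (h : G) ∈ A})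
    (P2 : Pairing H2 {h | (h : G) ∈ A}) :
    ∃ w : ℕ → G, w 0 = 1 ∧ (∀ k, (w k)⁻¹ * w (k + 1) ∈ A) ∧ w (Nat.card G) = 1 ∧
      ∀ i j, i < Nat.card G → j < Nat.card G → w i = w j → i = j := by
  classical
  have heq : ∀ H : Subgroup G, Equivalence (fun x y : G => x⁻¹ * y ∈ H) := by
    intro H
    refine ⟨?_, ?_, ?_⟩
    · intro x
      rw [inv_mul_cancel]
      exact H.one_mem
    · intro x y h
      have := H.inv_mem h
      rwa [mul_inv_rev, inv_inv] at this
    · intro x y z h h'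
      have := H.mul_mem h h'
      rwa [mul_assoc, mul_inv_cancel_left] at this
  obtain ⟨f0, hf0, hf0H, hf0A⟩ := initial A H1 e1 P1
  obtain ⟨g0, hg0, hg0H, hg0A⟩ := initial A H2 e2 P2
  have hleft : ∀ c x y : G, Relation.EqvGen (fun a b => a⁻¹ * b ∈ H1 ∨ a⁻¹ * b ∈ H2) x y →
      Relation.EqvGen (fun a b => a⁻¹ * b ∈ H1 ∨ a⁻¹ * b ∈ H2) (c * x) (c * y) := by
    intro c x y h
    induction h with
    | rel a b hab =>
      apply Relation.EqvGen.rel
      have h1 : (c * a)⁻¹ * (c * b) = a⁻¹ * b := by group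
      rw [h1]
      exact hab
    | refl a => exact Relation.EqvGen.refl _
    | symm a b _ ih => exact Relation.EqvGen.symm _ _ ih
    | trans a b c _ _ ih1 ih2 => exact Relation.EqvGen.trans _ _ _ ih1 ih2
  have hone : ∀ y : G, Relation.EqvGen (fun a b => a⁻¹ * b ∈ H1 ∨ a⁻¹ * b ∈ H2) 1 y := by
    intro y
    have hy : y ∈ H1 ⊔ H2 := by rw [hG]; trivial
    rw [Subgroup.sup_eq_closure] at hy
    induction hy using Subgroup.closure_induction with
    | mem b hb =>
      apply Relation.EqvGen.rel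
      rw [inv_one, one_mul]
      exact hb
    | one => exact Relation.EqvGen.refl _
    | mul a b _ _ iha ihb =>
      have h3 := hleft a _ _ ihb
      rw [mul_one] at h3
      exact Relation.EqvGen.trans _ _ _ iha h3
    | inv a _ iha =>
      have h3 := hleft a⁻¹ _ _ iha
      rw [mul_one, inv_mul_cancel] at h3
      exact Relation.EqvGen.symm _ _ h3
  obtain ⟨f, g, hf, hg, hfA, hgA, hc⟩ := merge (fun x y : G => x⁻¹ * y ∈ H1)
    (fun x y : G => x⁻¹ * y ∈ H2) (fun a b => a⁻¹ * b ∈ A) (fun a b => a⁻¹ * b ∈ A) (heq H1)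
    (heq H2) (good_coset A H1 P1) (good_coset A H2 P2)
    (fun x y => Relation.EqvGen.trans _ _ _ (Relation.EqvGen.symm _ _ (hone x)) (hone y))
    f0 g0 hf0 hg0 hf0H hg0H hf0A hg0A
  obtain ⟨w, hw0, hws, hwn, hwi, _⟩ := exists_cycle (fun x => (hf x trivial).2)
    (fun x => (hg x trivial).2) hc 1
  refine ⟨w, hw0, ?_, hwn, hwi⟩
  intro k
  rcases hws k with h | h
  · rw [h]
    exact hfA _
  · rw [h]
    exact hgA _

/-- from a closed walk to a list -/
theorem list_of_walk (A : Set G) {w : ℕ → G} (h0 : w 0 = 1) (hA : ∀ k, (w k)⁻¹ * w (k + 1) ∈ A)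
    (hn : w (Nat.card G) = 1)
    (hi : ∀ i j, i < Nat.card G → j < Nat.card G → w i = w j → i = j) :
    ∃ l : List G, l.length = Nat.card G ∧ (∀ a ∈ l, a ∈ A) ∧
      (∀ i j : ℕ, 1 ≤ i → i ≤ Nat.card G → 1 ≤ j → j ≤ Nat.card G →
        (l.take i).prod = (l.take j).prod → i = j) ∧ l.prod = 1 := by
  obtain ⟨l, hl⟩ : ∃ l : List G,
      l = (List.range (Nat.card G)).map (fun k => (w k)⁻¹ * w (k + 1)) := ⟨_, rfl⟩
  have hlen : l.length = Nat.card G := by
    rw [hl, List.length_map, List.length_range]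
  have hprod : ∀ m, ((List.range m).map (fun k => (w k)⁻¹ * w (k + 1))).prod = w m := by
    intro m
    induction m with
    | zero => simp [h0]
    | succ m ih =>
      rw [List.range_succ, List.map_append, List.prod_append, ih]
      simp
  have htake : ∀ i, i ≤ Nat.card G → (l.take i).prod = w i := by
    intro i hi
    rw [hl, ← List.map_take, List.take_range, Nat.min_eq_left hi, hprod]
  refine ⟨l, hlen, ?_, ?_, ?_⟩
  · intro a ha
    rw [hl, List.mem_map] at ha
    obtain ⟨k, _, rfl⟩ := ha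
    exact hA k
  · intro i j hi1 hin hj1 hjn h
    rw [htake i hin, htake j hjn] at h
    have hpos : 0 < Nat.card G := Nat.card_pos
    by_cases h1 : i = Nat.card G
    · by_cases h2 : j = Nat.card G
      · rw [h1, h2]
      · rw [h1, hn, ← h0] at h
        have := hi 0 j hpos (by omega) h
        omega
    · by_cases h2 : j = Nat.card G
      · rw [h2, hn, ← h0] at h
        have := hi i 0 (by omega) hpos h
        omega
      · exact hi i j (by omega) (by omega) h
  · rw [hl, hprod, hn]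

end grp

end Pool.Agent.Q27.HC
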