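import Mathlib

/-!
# Completing pairings to connected unions of two pairings

`Inv S f`: the map `f` restricts to an involution of the set `S` without fixed points (a pairing of
the elements of `S`).  `Rel f g` is the equivalence relation generated by `x ~ f x`, `x ~ g x`.
-/

set_option autoImplicit false

namespace Pool.Agent.Q27.HC

variable {X : Type*}

/-- `f` is an involution without fixed points of the set `S` -/
def Inv (S : Set X) (f : X → X) : Prop := ∀ x ∈ S, f x ∈ S ∧ f (f x) = x ∧ f x ≠ x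

/-- the equivalence relation generated by `f` and `g` on `S` -/
def Rel (S : Set X) (f g : X → X) : X → X → Prop :=
  Relation.EqvGen (fun a b => a ∈ S ∧ (b = f a ∨ b = g a))

section rel

variable {S : Set X} {f g : X → X}

theorem Rel.refl (x : X) : Rel S f g x x := Relation.EqvGen.refl x

theorem Rel.symm {x y : X} (h : Rel S f g x y) : Rel S f g y x :=
  Relation.EqvGen.symm _ _ h

theorem Rel.trans {x y z : X} (h : Rel S f g x y) (h' : Rel S f g y z) : Rel S f g x z :=
  Relation.EqvGen.trans _ _ _ h h'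

theorem Rel.left {x : X} (hx : x ∈ S) : Rel S f g x (f x) :=
  Relation.EqvGen.rel _ _ ⟨hx, Or.inl rfl⟩

theorem Rel.right {x : X} (hx : x ∈ S) : Rel S f g x (g x) :=
  Relation.EqvGen.rel _ _ ⟨hx, Or.inr rfl⟩

/-- a property which does not change under `f` and `g` is constant on the classes -/
theorem Rel.inv {P : X → Prop} (h1 : ∀ a ∈ S, (P a ↔ P (f a))) (h2 : ∀ a ∈ S, (P a ↔ P (g a)))
    {x y : X} (h : Rel S f g x y) : P x ↔ P y := by
  induction h with
  | rel a b hab =>
    obtain ⟨ha, rfl | rfl⟩ := hab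
    · exact h1 a ha
    · exact h2 a ha
  | refl a => exact Iff.rfl
  | symm a b _ ih => exact ih.symm
  | trans a b c _ _ ih1 ih2 => exact ih1.trans ih2

end rel

/-- a finite set with a pairing has an even number of elements -/
theorem even_of_inv (S : Finset X) (f : X → X) (h : ∀ x ∈ S, f x ∈ S ∧ f (f x) = x ∧ f x ≠ x) :
    Even S.card := by
  have h1 : ∑ x ∈ S, (1 : ZMod 2) = 0 := by
    refine Finset.sum_involution (fun x _ => f x) ?_ ?_ ?_ ?_
    · intro x _
      decide
    · intro x hx _
      exact (h x hx).2.2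
    · intro x hx
      exact (h x hx).1
    · intro x hx
      exact (h x hx).2.1
  rw [Finset.sum_const, nsmul_eq_mul, mul_one] at h1
  exact (ZMod.natCast_eq_zero_iff_even).1 h1

/-- a finite set with a relation all of whose classes are even has a pairing inside the classes -/
theorem exists_pairing [DecidableEq X] (r : X → X → Prop) [DecidableRel r] (hr : Equivalence r) :
    ∀ (n : ℕ) (U : Finset X), U.card = n → (∀ x ∈ U, Even (U.filter (fun y => r x y)).card) →
      ∃ e : X → X, ∀ x ∈ U, e x ∈ U ∧ e (e x) = x ∧ e x ≠ x ∧ r x (e x) := by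
  intro n
  induction n using Nat.strong_induction_on with
  | _ n ih =>
    intro U hn hU
    by_cases hne : U.Nonempty
    · obtain ⟨x, hx⟩ := hne
      have h1 := hU x hx
      have hxf : x ∈ U.filter (fun y => r x y) := Finset.mem_filter.2 ⟨hx, hr.refl x⟩
      have h2 : ∃ y ∈ U.filter (fun y => r x y), y ≠ x := by
        by_contra hcon
        push Not at hcon
        have h3 : U.filter (fun y => r x y) = {x} := by
          ext y
          rw [Finset.mem_singleton]
          exact ⟨fun hy => hcon y hy, fun hy => by rw [hy]; exact hxf⟩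
        rw [h3, Finset.card_singleton] at h1
        exact absurd h1 (by decide)
      obtain ⟨y, hy, hyx⟩ := h2
      rw [Finset.mem_filter] at hy
      obtain ⟨hyU, hxy⟩ := hy
      let U' : Finset X := (U.erase x).erase y
      have hU' : ∀ z, z ∈ U' ↔ z ≠ y ∧ z ≠ x ∧ z ∈ U := by
        intro z
        simp only [U', Finset.mem_erase]
      have hcard : U'.card < n := by
        have h4 : U' ⊂ U := by
          rw [Finset.ssubset_iff_of_subset
            ((Finset.erase_subset _ _).trans (Finset.erase_subset _ _))]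
          exact ⟨x, hx, fun h => ((hU' x).1 h).2.1 rfl⟩
        rw [← hn]
        exact Finset.card_lt_card h4
      obtain ⟨e, he⟩ := ih U'.card hcard U' rfl (by
        intro z hz
        obtain ⟨hzy, hzx, hzU⟩ := (hU' z).1 hz
        have h5 := hU z hzU
        by_cases hc : r z x
        · have hc' : r z y := hr.trans hc hxy
          have h6 : U'.filter (fun w => r z w) = ((U.filter (fun w => r z w)).erase x).erase y := by
            ext w
            simp only [Finset.mem_filter, hU', Finset.mem_erase]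
            tauto
          rw [h6, Finset.card_erase_of_mem (Finset.mem_erase.2 ⟨hyx,
            Finset.mem_filter.2 ⟨hyU, hc'⟩⟩), Finset.card_erase_of_mem
              (Finset.mem_filter.2 ⟨hx, hc⟩)]
          have h7 : 2 ≤ (U.filter (fun w => r z w)).card := by
            rw [← Finset.card_pair hyx]
            apply Finset.card_le_card
            intro w hw
            rw [Finset.mem_insert, Finset.mem_singleton] at hw
            rcases hw with rfl | rfl
            · exact Finset.mem_filter.2 ⟨hyU, hc'⟩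
            · exact Finset.mem_filter.2 ⟨hx, hc⟩
          obtain ⟨k, hk⟩ := h5
          refine ⟨k - 1, ?_⟩
          generalize (U.filter (fun w => r z w)).card = c at h7 hk ⊢
          omega
        · have hc' : ¬ r z y := fun h => hc (hr.trans h (hr.symm hxy))
          have h6 : U'.filter (fun w => r z w) = U.filter (fun w => r z w) := by
            ext w
            simp only [Finset.mem_filter, hU']
            constructor
            · rintro ⟨⟨_, _, h⟩, h'⟩
              exact ⟨h, h'⟩
            · rintro ⟨h, h'⟩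
              exact ⟨⟨fun hw => hc' (hw ▸ h'), fun hw => hc (hw ▸ h'), h⟩, h'⟩
          rw [h6]
          exact h5)
      refine ⟨fun z => if z = x then y else if z = y then x else e z, ?_⟩
      intro z hz
      by_cases hzx : z = x
      · subst hzx
        refine ⟨?_, ?_, ?_, ?_⟩
        · simp only [if_true]; exact hyU
        · simp only [if_true, if_neg hyx]
        · simp only [if_true]; exact hyx
        · simp only [if_true]; exact hxy
      · by_cases hzy : z = y
        · subst hzy
          refine ⟨?_, ?_, ?_, ?_⟩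
          · simp only [if_neg hzx, if_true]; exact hx
          · simp only [if_neg hzx, if_true]
          · simp only [if_neg hzx, if_true]; exact fun h => hzx h.symm
          · simp only [if_neg hzx, if_true]; exact hr.symm hxy
        · obtain ⟨h1, h2, h3, h4⟩ := he z ((hU' z).2 ⟨hzy, hzx, hz⟩)
          obtain ⟨h5, h6, h7⟩ := (hU' _).1 h1
          simp only [if_neg hzx, if_neg hzy, if_neg h6, if_neg h5]
          exact ⟨h7, h2, h3, h4⟩
    · rw [Finset.not_nonempty_iff_eq_empty] at hne
      subst hne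
      exact ⟨id, fun x hx => absurd hx (Finset.notMem_empty x)⟩

/-- The parity argument.  `α` is a pairing of `S` and `β` a pairing of `S \ U`; then the elements of
`U` can be paired inside the classes of the relation generated by `α` and by `β` off `U`. -/
theorem parity [Finite X] (S U : Set X) (hU : U ⊆ S) (α β : X → X) (hα : Inv S α)
    (hβ : ∀ x ∈ S, x ∉ U → β x ∈ S ∧ β x ∉ U ∧ β (β x) = x ∧ β x ≠ x) :
    ∃ e : X → X, Inv U e ∧ ∀ x ∈ U,
      Relation.EqvGen (fun a b => a ∈ S ∧ (b = α a ∨ (a ∉ U ∧ b = β a))) x (e x) := by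
  classical
  have := Fintype.ofFinite X
  let r : X → X → Prop :=
    Relation.EqvGen (fun a b => a ∈ S ∧ (b = α a ∨ (a ∉ U ∧ b = β a)))
  have hr : Equivalence r := Relation.EqvGen.is_equivalence _
  -- the parity of the classes
  have hpar : ∀ x ∈ U, Even ((U.toFinset).filter (fun y => r x y)).card := by
    intro x _
    have h1 : Even ((S.toFinset).filter (fun y => r x y)).card := by
      refine even_of_inv _ α ?_
      intro y hy
      rw [Finset.mem_filter, Set.mem_toFinset] at hy
      obtain ⟨hyS, hxy⟩ := hy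
      obtain ⟨a1, a2, a3⟩ := hα y hyS
      refine ⟨?_, a2, a3⟩
      rw [Finset.mem_filter, Set.mem_toFinset]
      exact ⟨a1, hr.trans hxy (Relation.EqvGen.rel _ _ ⟨hyS, Or.inl rfl⟩)⟩
    have h2 : Even (((S \ U).toFinset).filter (fun y => r x y)).card := by
      refine even_of_inv _ β ?_
      intro y hy
      rw [Finset.mem_filter, Set.mem_toFinset] at hy
      obtain ⟨⟨hyS, hyU⟩, hxy⟩ := hy
      obtain ⟨b1, b2, b3, b4⟩ := hβ y hyS hyU
      refine ⟨?_, b3, b4⟩
      rw [Finset.mem_filter, Set.mem_toFinset]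
      exact ⟨⟨b1, b2⟩, hr.trans hxy (Relation.EqvGen.rel _ _ ⟨hyS, Or.inr ⟨hyU, rfl⟩⟩)⟩
    have h3 : ((S.toFinset).filter (fun y => r x y)).card =
        ((U.toFinset).filter (fun y => r x y)).card +
          (((S \ U).toFinset).filter (fun y => r x y)).card := by
      rw [← Finset.card_union_of_disjoint]
      · congr 1
        ext y
        simp only [Finset.mem_union, Finset.mem_filter, Set.mem_toFinset, Set.mem_sdiff]
        constructor
        · rintro ⟨h, h'⟩
          by_cases hy : y ∈ U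
          · exact Or.inl ⟨hy, h'⟩
          · exact Or.inr ⟨⟨h, hy⟩, h'⟩
        · rintro (⟨h, h'⟩ | ⟨⟨h, _⟩, h'⟩)
          · exact ⟨hU h, h'⟩
          · exact ⟨h, h'⟩
      · rw [Finset.disjoint_left]
        intro y hy hy'
        rw [Finset.mem_filter, Set.mem_toFinset] at hy hy'
        exact hy'.1.2 hy.1
    rw [h3] at h1
    exact (Nat.even_add.1 h1).2 h2
  obtain ⟨e, he⟩ := exists_pairing r hr _ U.toFinset rfl (by
    intro x hx
    rw [Set.mem_toFinset] at hx
    exact hpar x hx)
  refine ⟨e, ?_, ?_⟩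
  · intro x hx
    obtain ⟨h1, h2, h3, _⟩ := he x (Set.mem_toFinset.2 hx)
    exact ⟨Set.mem_toFinset.1 h1, h2, h3⟩
  · intro x hx
    exact (he x (Set.mem_toFinset.2 hx)).2.2.2

/-- For every pairing `f` of `S` there is a pairing `g` of `S` along pairs in the relation `E` such
that all elements of `S` are connected by `f` and `g`. -/
def Good (S : Set X) (E : X → X → Prop) : Prop :=
  ∀ f : X → X, Inv S f → ∃ g : X → X, Inv S g ∧ (∀ x ∈ S, E x (g x)) ∧
    ∀ x ∈ S, ∀ y ∈ S, Rel S f g x y

/-- **the splitting step** (after Fink) -/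
theorem split [Finite X] {S0 S1 : Set X} {E : X → X → Prop} (hd : Disjoint S0 S1)
    (h0 : Good S0 E) (h1 : Good S1 E) (α : X → X) (hα : Inv S0 α) (f : X → X)
    (hf : Inv (S0 ∪ S1) f) (z : X) (hz : z ∈ S0) (hfz : f z ∈ S1) :
    ∃ g : X → X, Inv (S0 ∪ S1) g ∧ (∀ x ∈ S0 ∪ S1, E x (g x)) ∧
      ∀ x ∈ S0 ∪ S1, ∀ y ∈ S0 ∪ S1, Rel (S0 ∪ S1) f g x y := by
  classical
  have hnot : ∀ x ∈ S0, x ∉ S1 := fun x hx hx' => Set.disjoint_left.1 hd hx hx'
  obtain ⟨U0, hU0⟩ : ∃ U0 : Set X, U0 = {x | x ∈ S0 ∧ f x ∈ S1} := ⟨_, rfl⟩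
  obtain ⟨U1, hU1⟩ : ∃ U1 : Set X, U1 = {x | x ∈ S1 ∧ f x ∈ S0} := ⟨_, rfl⟩
  have m0 : ∀ x, x ∈ U0 ↔ x ∈ S0 ∧ f x ∈ S1 := by intro x; rw [hU0]; rfl
  have m1 : ∀ x, x ∈ U1 ↔ x ∈ S1 ∧ f x ∈ S0 := by intro x; rw [hU1]; rfl
  have hU0S : U0 ⊆ S0 := fun x hx => ((m0 x).1 hx).1
  have hoff : ∀ x ∈ S0, x ∉ U0 → f x ∈ S0 ∧ f x ∉ U0 ∧ f (f x) = x ∧ f x ≠ x := by
    intro x hx hxU
    obtain ⟨a1, a2, a3⟩ := hf x (Or.inl hx)
    have hfx : f x ∈ S0 := by
      rcases a1 with h | h
      · exact h
      · exact absurd ((m0 x).2 ⟨hx, h⟩) hxU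
    refine ⟨hfx, ?_, a2, a3⟩
    intro h
    have h2 := ((m0 _).1 h).2
    rw [a2] at h2
    exact hnot x hx h2
  -- a pairing of `U0`
  obtain ⟨σ, hσ, _⟩ := parity S0 U0 hU0S α f hα hoff
  obtain ⟨f0, hf0⟩ : ∃ f0 : X → X, f0 = fun x => if x ∈ U0 then σ x else f x := ⟨_, rfl⟩
  have f0in : ∀ x ∈ U0, f0 x = σ x := by intro x hx; rw [hf0]; simp only [if_pos hx]
  have f0out : ∀ x, x ∉ U0 → f0 x = f x := by intro x hx; rw [hf0]; simp only [if_neg hx]
  have hInv0 : Inv S0 f0 := by
    intro x hx
    by_cases hxU : x ∈ U0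
    · obtain ⟨s1, s2, s3⟩ := hσ x hxU
      rw [f0in x hxU, f0in _ s1]
      exact ⟨hU0S s1, s2, s3⟩
    · obtain ⟨s1, s2, s3, s4⟩ := hoff x hx hxU
      rw [f0out x hxU, f0out _ s2]
      exact ⟨s1, s3, s4⟩
  obtain ⟨g0, hg0, hg0E, hg0c⟩ := h0 f0 hInv0
  -- the ends of the paths
  obtain ⟨e, he, hec⟩ := parity S0 U0 hU0S g0 f hg0 hoff
  obtain ⟨f1, hf1⟩ : ∃ f1 : X → X, f1 = fun x => if x ∈ U1 then f (e (f x)) else f x := ⟨_, rfl⟩
  have f1in : ∀ x ∈ U1, f1 x = f (e (f x)) := by intro x hx; rw [hf1]; simp only [if_pos hx]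
  have f1out : ∀ x, x ∉ U1 → f1 x = f x := by intro x hx; rw [hf1]; simp only [if_neg hx]
  have u10 : ∀ x ∈ U1, f x ∈ U0 := by
    intro x hx
    obtain ⟨a, b⟩ := (m1 x).1 hx
    exact (m0 _).2 ⟨b, by rw [(hf x (Or.inr a)).2.1]; exact a⟩
  have u01 : ∀ x ∈ U0, f x ∈ U1 := by
    intro x hx
    obtain ⟨a, b⟩ := (m0 x).1 hx
    exact (m1 _).2 ⟨b, by rw [(hf x (Or.inl a)).2.1]; exact a⟩
  have hInv1 : Inv S1 f1 := by
    intro x hx
    by_cases hxU : x ∈ U1
    · have h2 := u10 x hxU
      obtain ⟨s1, s2, s3⟩ := he _ h2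
      have h3 := u01 _ s1
      have h6 := (hf _ (Or.inl (hU0S s1))).2.1
      rw [f1in x hxU, f1in _ h3, h6, s2, (hf x (Or.inr hx)).2.1]
      refine ⟨((m1 _).1 h3).1, rfl, ?_⟩
      intro h4
      apply s3
      rw [h4] at h6
      exact h6.symm
    · obtain ⟨a1, a2, a3⟩ := hf x (Or.inr hx)
      have hfx : f x ∈ S1 := by
        rcases a1 with h | h
        · exact absurd ((m1 x).2 ⟨hx, h⟩) hxU
        · exact h
      have h5 : f x ∉ U1 := by
        intro h
        have h2 := ((m1 _).1 h).2
        rw [a2] at h2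
        exact hnot x h2 hx
      rw [f1out x hxU, f1out _ h5]
      exact ⟨hfx, a2, a3⟩
  obtain ⟨g1, hg1, hg1E, hg1c⟩ := h1 f1 hInv1
  obtain ⟨g, hg⟩ : ∃ g : X → X, g = fun x => if x ∈ S0 then g0 x else g1 x := ⟨_, rfl⟩
  have gin : ∀ x ∈ S0, g x = g0 x := by intro x hx; rw [hg]; simp only [if_pos hx]
  have gout : ∀ x ∈ S1, g x = g1 x := by
    intro x hx; rw [hg]; simp only [if_neg (fun h => hnot x h hx)]
  have hL : ∀ x ∈ S0 ∪ S1, Rel (S0 ∪ S1) f g x (f x) := fun x hx => Rel.left hx
  have hR : ∀ x ∈ S0 ∪ S1, Rel (S0 ∪ S1) f g x (g x) := fun x hx => Rel.right hx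
  -- paths inside `S0`
  have path0 : ∀ x y, Relation.EqvGen (fun a b => a ∈ S0 ∧ (b = g0 a ∨ (a ∉ U0 ∧ b = f a))) x y →
      Rel (S0 ∪ S1) f g x y := by
    intro x y h
    induction h with
    | rel a b hab =>
      obtain ⟨ha, hb | ⟨_, hb⟩⟩ := hab
      · rw [hb, ← gin a ha]; exact Rel.right (Or.inl ha)
      · rw [hb]; exact Rel.left (Or.inl ha)
    | refl a => exact Rel.refl a
    | symm a b _ ih => exact ih.symm
    | trans a b c _ _ ih1 ih2 => exact ih1.trans ih2
  -- every element of `S0` is connected to `U0`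
  have hzU : z ∈ U0 := (m0 z).2 ⟨hz, hfz⟩
  have toU : ∀ x ∈ S0, ∃ u ∈ U0, Rel (S0 ∪ S1) f g x u := by
    have step : ∀ x ∈ S0, (∃ u ∈ U0, Rel (S0 ∪ S1) f g x u) →
        (∃ u ∈ U0, Rel (S0 ∪ S1) f g (f0 x) u) ∧ ∃ u ∈ U0, Rel (S0 ∪ S1) f g (g0 x) u := by
      intro x hx hxu
      obtain ⟨u, hu, hxu⟩ := hxu
      refine ⟨?_, u, hu, ?_⟩
      · by_cases hxU : x ∈ U0
        · refine ⟨f0 x, ?_, Rel.refl _⟩
          rw [f0in x hxU]
          exact (hσ x hxU).1
        · rw [f0out x hxU]
          exact ⟨u, hu, (hL x (Or.inl hx)).symm.trans hxu⟩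
      · rw [← gin x hx]
        exact (hR x (Or.inl hx)).symm.trans hxu
    intro x hx
    have h3 := (Rel.inv (P := fun a => a ∈ S0 ∧ ∃ u ∈ U0, Rel (S0 ∪ S1) f g a u)
      (S := S0) (f := f0) (g := g0) (fun a ha => ?_) (fun a ha => ?_) (hg0c z hz x hx)).1
      ⟨hz, z, hzU, Rel.refl z⟩
    · exact h3.2
    · obtain ⟨i1, i2, _⟩ := hInv0 a ha
      refine ⟨fun h => ⟨i1, (step a ha h.2).1⟩, fun h => ⟨ha, ?_⟩⟩
      have := (step _ i1 h.2).1
      rwa [i2] at this
    · obtain ⟨i1, i2, _⟩ := hg0 a ha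
      refine ⟨fun h => ⟨i1, (step a ha h.2).2⟩, fun h => ⟨ha, ?_⟩⟩
      have := (step _ i1 h.2).2
      rwa [i2] at this
  -- paths inside `S1`
  have path1 : ∀ x y, Rel S1 f1 g1 x y → Rel (S0 ∪ S1) f g x y := by
    intro x y h
    induction h with
    | rel a b hab =>
      obtain ⟨ha, hb | hb⟩ := hab
      · rw [hb]
        by_cases haU : a ∈ U1
        · rw [f1in a haU]
          have h2 := u10 a haU
          obtain ⟨s1, _, _⟩ := he _ h2
          exact (hL a (Or.inr ha)).trans ((path0 _ _ (hec _ h2)).trans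
            (hL _ (Or.inl (hU0S s1))))
        · rw [f1out a haU]
          exact Rel.left (Or.inr ha)
      · rw [hb, ← gout a ha]; exact Rel.right (Or.inr ha)
    | refl a => exact Rel.refl a
    | symm a b _ ih => exact ih.symm
    | trans a b c _ _ ih1 ih2 => exact ih1.trans ih2
  have to1 : ∀ x ∈ S0 ∪ S1, ∃ y ∈ S1, Rel (S0 ∪ S1) f g x y := by
    rintro x (hx | hx)
    · obtain ⟨u, hu, hxu⟩ := toU x hx
      exact ⟨f u, ((m0 u).1 hu).2, hxu.trans (Rel.left (Or.inl (hU0S hu)))⟩
    · exact ⟨x, hx, Rel.refl x⟩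
  refine ⟨g, ?_, ?_, ?_⟩
  · rintro x (hx | hx)
    · obtain ⟨i1, i2, i3⟩ := hg0 x hx
      rw [gin x hx, gin _ i1]
      exact ⟨Or.inl i1, i2, i3⟩
    · obtain ⟨i1, i2, i3⟩ := hg1 x hx
      rw [gout x hx, gout _ i1]
      exact ⟨Or.inr i1, i2, i3⟩
  · rintro x (hx | hx)
    · rw [gin x hx]; exact hg0E x hx
    · rw [gout x hx]; exact hg1E x hx
  · intro x hx y hy
    obtain ⟨x', hx', hxx⟩ := to1 x hx
    obtain ⟨y', hy', hyy⟩ := to1 y hy
    exact hxx.trans ((path1 _ _ (hg1c x' hx' y' hy')).trans hyy.symm)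

/-- **merging**: blocks of two kinds, with all blocks good, which connect everything, carry two
pairings which connect everything -/
theorem merge [Finite X] (p q E1 E2 : X → X → Prop) (hp : Equivalence p) (hq : Equivalence q)
    (hpG : ∀ x, Good {y | p x y} E1) (hqG : ∀ x, Good {y | q x y} E2)
    (hpq : ∀ x y, Relation.EqvGen (fun a b => p a b ∨ q a b) x y)
    (f0 g0 : X → X) (hf0 : Inv Set.univ f0) (hg0 : Inv Set.univ g0)
    (hf0p : ∀ x, p x (f0 x)) (hg0q : ∀ x, q x (g0 x)) (hf0E : ∀ x, E1 x (f0 x))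
    (hg0E : ∀ x, E2 x (g0 x)) :
    ∃ f g : X → X, Inv Set.univ f ∧ Inv Set.univ g ∧ (∀ x, E1 x (f x)) ∧ (∀ x, E2 x (g x)) ∧
      ∀ x y, Rel Set.univ f g x y := by
  classical
  have := Fintype.ofFinite X
  -- one step
  have step : ∀ (p E1 : X → X → Prop), Equivalence p → (∀ x, Good {y | p x y} E1) →
      ∀ f g : X → X, Inv Set.univ f → Inv Set.univ g → (∀ x, p x (f x)) → (∀ x, E1 x (f x)) →
      ∀ x y, p x y → ∃ f' : X → X, Inv Set.univ f' ∧ (∀ x, p x (f' x)) ∧ (∀ x, E1 x (f' x)) ∧
        (∀ a b, Rel Set.univ f g a b → Rel Set.univ f' g a b) ∧ Rel Set.univ f' g x y := by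
    intro p E1 hp hpG f g hf hg hfp hfE x y hxy
    obtain ⟨B, hB⟩ : ∃ B : Set X, B = {y | p x y} := ⟨_, rfl⟩
    have mB : ∀ y, y ∈ B ↔ p x y := by intro y; rw [hB]; rfl
    have hBf : ∀ a, a ∈ B ↔ f a ∈ B := by
      intro a
      rw [mB, mB]
      exact ⟨fun h => hp.trans h (hfp a), fun h => hp.trans h (hp.symm (hfp a))⟩
    obtain ⟨e, he, hec⟩ := parity Set.univ B (Set.subset_univ B) g f hg (by
      intro a _ haB
      obtain ⟨h1, h2, h3⟩ := hf a trivial
      exact ⟨trivial, fun h => haB ((hBf a).2 h), h2, h3⟩)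
    have hgood := hpG x
    rw [← hB] at hgood
    obtain ⟨fB, hfB, hfBE, hfBc⟩ := hgood e he
    obtain ⟨f', hf'⟩ : ∃ f' : X → X, f' = fun a => if a ∈ B then fB a else f a := ⟨_, rfl⟩
    have fin' : ∀ a ∈ B, f' a = fB a := by intro a ha; rw [hf']; simp only [if_pos ha]
    have fout : ∀ a, a ∉ B → f' a = f a := by intro a ha; rw [hf']; simp only [if_neg ha]
    have hInv : Inv Set.univ f' := by
      intro a _
      by_cases ha : a ∈ B
      · obtain ⟨h1, h2, h3⟩ := hfB a ha
        rw [fin' a ha, fin' _ h1]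
        exact ⟨trivial, h2, h3⟩
      · obtain ⟨h1, h2, h3⟩ := hf a trivial
        rw [fout a ha, fout _ (fun h => ha ((hBf a).2 h))]
        exact ⟨trivial, h2, h3⟩
    have path : ∀ a b, Relation.EqvGen (fun a b => a ∈ (Set.univ : Set X) ∧
        (b = g a ∨ (a ∉ B ∧ b = f a))) a b → Rel Set.univ f' g a b := by
      intro a b h
      induction h with
      | rel a b hab =>
        obtain ⟨_, hb | ⟨ha, hb⟩⟩ := hab
        · rw [hb]; exact Rel.right trivial
        · rw [hb, ← fout a ha]; exact Rel.left trivial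
      | refl a => exact Rel.refl a
      | symm a b _ ih => exact ih.symm
      | trans a b c _ _ ih1 ih2 => exact ih1.trans ih2
    have hBc : ∀ a ∈ B, ∀ b ∈ B, Rel Set.univ f' g a b := by
      intro a ha b hb
      have h1 := hfBc a ha b hb
      have h2 : ∀ c d, Rel B e fB c d → Rel Set.univ f' g c d := by
        intro c d h
        induction h with
        | rel a b hab =>
          obtain ⟨ha, hb | hb⟩ := hab
          · rw [hb]; exact path _ _ (hec a ha)
          · rw [hb, ← fin' a ha]; exact Rel.left trivial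
        | refl a => exact Rel.refl a
        | symm a b _ ih => exact ih.symm
        | trans a b c _ _ ih1 ih2 => exact ih1.trans ih2
      exact h2 a b h1
    refine ⟨f', hInv, ?_, ?_, ?_, hBc x ((mB x).2 (hp.refl x)) y ((mB y).2 hxy)⟩
    · intro a
      by_cases ha : a ∈ B
      · rw [fin' a ha]
        exact hp.trans (hp.symm ((mB a).1 ha)) ((mB _).1 (hfB a ha).1)
      · rw [fout a ha]
        exact hfp a
    · intro a
      by_cases ha : a ∈ B
      · rw [fin' a ha]
        exact hfBE a ha
      · rw [fout a ha]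
        exact hfE a
    · intro a b h
      induction h with
      | rel a b hab =>
        obtain ⟨_, hb | hb⟩ := hab
        · rw [hb]
          by_cases ha : a ∈ B
          · exact hBc a ha _ ((hBf a).1 ha)
          · rw [← fout a ha]
            exact Rel.left trivial
        · rw [hb]; exact Rel.right trivial
      | refl a => exact Rel.refl a
      | symm a b _ ih => exact ih.symm
      | trans a b c _ _ ih1 ih2 => exact ih1.trans ih2
  -- the induction
  have main : ∀ (n : ℕ) (f g : X → X), Inv Set.univ f → Inv Set.univ g → (∀ x, p x (f x)) →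
      (∀ x, q x (g x)) → (∀ x, E1 x (f x)) → (∀ x, E2 x (g x)) →
      ((Finset.univ : Finset (X × X)).filter (fun a => ¬ Rel Set.univ f g a.1 a.2)).card = n →
      ∃ f g : X → X, Inv Set.univ f ∧ Inv Set.univ g ∧ (∀ x, E1 x (f x)) ∧ (∀ x, E2 x (g x)) ∧
        ∀ x y, Rel Set.univ f g x y := by
    intro n
    induction n using Nat.strong_induction_on with
    | _ n ih =>
      intro f g hf hg hfp hgq hfE hgE hn
      by_cases hall : ∀ x y, Rel Set.univ f g x y
      · exact ⟨f, g, hf, hg, hfE, hgE, hall⟩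
      · have h1 : ∃ x y, (p x y ∨ q x y) ∧ ¬ Rel Set.univ f g x y := by
          by_contra hcon
          push Not at hcon
          apply hall
          intro x y
          have h2 := hpq x y
          induction h2 with
          | rel a b hab => exact hcon a b hab
          | refl a => exact Rel.refl a
          | symm a b _ ih => exact ih.symm
          | trans a b c _ _ ih1 ih2 => exact ih1.trans ih2
        obtain ⟨x, y, hxy, hnr⟩ := h1
        rcases hxy with hxy | hxy
        · obtain ⟨f', k1, k2, k3, k4, k5⟩ := step p E1 hp hpG f g hf hg hfp hfE x y hxy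
          refine ih _ ?_ f' g k1 hg k2 hgq k3 hgE rfl
          rw [← hn]
          apply Finset.card_lt_card
          rw [Finset.ssubset_iff_of_subset]
          · refine ⟨(x, y), ?_, ?_⟩
            · rw [Finset.mem_filter]
              exact ⟨Finset.mem_univ _, hnr⟩
            · rw [Finset.mem_filter]
              exact fun h => h.2 k5
          · intro a ha
            rw [Finset.mem_filter] at ha ⊢
            exact ⟨Finset.mem_univ _, fun h => ha.2 (k4 _ _ h)⟩
        · have hsw : ∀ (f g : X → X) (a b : X), Rel Set.univ f g a b → Rel Set.univ g f a b := by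
            intro f g a b h
            induction h with
            | rel a b hab =>
              obtain ⟨_, hb | hb⟩ := hab
              · rw [hb]; exact Rel.right trivial
              · rw [hb]; exact Rel.left trivial
            | refl a => exact Rel.refl a
            | symm a b _ ih => exact ih.symm
            | trans a b c _ _ ih1 ih2 => exact ih1.trans ih2
          obtain ⟨g', k1, k2, k3, k4, k5⟩ := step q E2 hq hqG g f hg hf hgq hgE x y hxy
          refine ih _ ?_ f g' hf k1 hfp k2 hfE k3 rfl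
          rw [← hn]
          apply Finset.card_lt_card
          rw [Finset.ssubset_iff_of_subset]
          · refine ⟨(x, y), ?_, ?_⟩
            · rw [Finset.mem_filter]
              exact ⟨Finset.mem_univ _, hnr⟩
            · rw [Finset.mem_filter]
              exact fun h => h.2 (hsw _ _ _ _ k5)
          · intro a ha
            rw [Finset.mem_filter] at ha ⊢
            exact ⟨Finset.mem_univ _, fun h => ha.2 (hsw _ _ _ _ (k4 _ _ (hsw _ _ _ _ h)))⟩
  exact main _ f0 g0 hf0 hg0 hf0p hg0q hf0E hg0E rfl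

end Pool.Agent.Q27.HC
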